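import Pool.Agent.Helper56.RC.StF

/-!
# Module G1 of project RC (track A, MP_b21509_co): the regime without a window, `m ≥ 1/10`, `S ≤ 1/5`
-/

set_option autoImplicit false

open MeasureTheory Set Filter Metric

namespace Pool.Agent.Helper47.RC

open Helper49.LT Helper49.RC Helper87.RC Helper44.RC Helper56.RC

theorem nsq (x y : ℝ) (u w : ℂ) : ‖(x : ℂ) * u - (y : ℂ) * (starRingEnd ℂ) w‖ ^ 2
    = x ^ 2 * ‖u‖ ^ 2 + y ^ 2 * ‖w‖ ^ 2 - 2 * x * y * (u * w).re := by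
  rw [← Complex.normSq_eq_norm_sq, ← Complex.normSq_eq_norm_sq, ← Complex.normSq_eq_norm_sq]
  simp only [Complex.normSq_apply, Complex.sub_re, Complex.sub_im, Complex.mul_re, Complex.mul_im,
    Complex.ofReal_re, Complex.ofReal_im, Complex.conj_re, Complex.conj_im]
  ring

theorem nadd (u w : ℂ) : ‖u + (starRingEnd ℂ) w‖ ^ 2
    = ‖u‖ ^ 2 + ‖w‖ ^ 2 + 2 * (u * w).re := by
  rw [← Complex.normSq_eq_norm_sq, ← Complex.normSq_eq_norm_sq, ← Complex.normSq_eq_norm_sq]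
  simp only [Complex.normSq_apply, Complex.add_re, Complex.add_im, Complex.mul_re,
    Complex.conj_re, Complex.conj_im]
  ring

theorem quad (α δ κ : ℝ) (hα : 0 ≤ α) (hδ : 0 ≤ δ) (h : κ ^ 2 ≤ α * δ) (u w : ℂ) :
    0 ≤ α * ‖u‖ ^ 2 + δ * ‖w‖ ^ 2 + 2 * κ * (u * w).re := by
  have h1 : |(u * w).re| ≤ ‖u‖ * ‖w‖ := by
    rw [← norm_mul]; exact Complex.abs_re_le_norm _
  have h2 : |κ| ≤ Real.sqrt α * Real.sqrt δ := by
    rw [← Real.sqrt_mul hα]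
    exact Real.abs_le_sqrt h
  have h3 : |κ * (u * w).re| ≤ (Real.sqrt α * Real.sqrt δ) * (‖u‖ * ‖w‖) := by
    rw [abs_mul]
    exact mul_le_mul h2 h1 (abs_nonneg _) (by positivity)
  have h4 := (abs_le.mp h3).1
  have h5 : α * ‖u‖ ^ 2 = (Real.sqrt α * ‖u‖) ^ 2 := by rw [mul_pow, Real.sq_sqrt hα]
  have h6 : δ * ‖w‖ ^ 2 = (Real.sqrt δ * ‖w‖) ^ 2 := by rw [mul_pow, Real.sq_sqrt hδ]
  rw [h5, h6]
  nlinarith [sq_nonneg (Real.sqrt α * ‖u‖ - Real.sqrt δ * ‖w‖)]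

theorem cos3 (n : ℤ) : Real.cos (2 * Real.pi * n / 3) = if n % 3 = 0 then 1 else -1 / 2 := by
  have h0 : n % 3 = 0 ∨ n % 3 = 1 ∨ n % 3 = 2 := by omega
  have key : ∀ r : ℤ, n % 3 = r → Real.cos (2 * Real.pi * n / 3) = Real.cos (2 * Real.pi * r / 3) := by
    intro r hr
    have h1 : n = 3 * (n / 3) + r := by omega
    have h2 : (2 * Real.pi * (n : ℝ) / 3) = 2 * Real.pi * (r : ℝ) / 3 + ((n / 3 : ℤ) : ℝ) * (2 * Real.pi) := by
      have h3 : (n : ℝ) = 3 * ((n / 3 : ℤ) : ℝ) + (r : ℝ) := by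
        conv_lhs => rw [h1]
        push_cast
        ring
      rw [h3]
      ring
    rw [h2, Real.cos_add_int_mul_two_pi]
  rcases h0 with h | h | h
  · rw [key 0 h, if_pos h]
    simp
  · rw [key 1 h, if_neg (by omega)]
    have : 2 * Real.pi * ((1 : ℤ) : ℝ) / 3 = Real.pi - Real.pi / 3 := by push_cast; ring
    rw [this, Real.cos_pi_sub, Real.cos_pi_div_three]
    norm_num
  · rw [key 2 h, if_neg (by omega)]
    have : 2 * Real.pi * ((2 : ℤ) : ℝ) / 3 = Real.pi / 3 + Real.pi := by push_cast; ring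
    rw [this, Real.cos_add_pi, Real.cos_pi_div_three]
    norm_num

theorem gam0 (n : ℤ) : Helper56.RC.gam 0 0 n = if (n + 1) % 3 = 0 then 1 else 1 / 4 := by
  unfold Helper56.RC.gam
  have h1 : 2 * Real.pi * ((n : ℝ) + 1) / 3 + 2 * n * 0 = 2 * Real.pi * ((n + 1 : ℤ) : ℝ) / 3 := by
    push_cast; ring
  rw [h1, cos3, mul_zero, Real.cos_zero]
  split_ifs <;> norm_num

theorem sgm0 (m : ℤ) : sgm 0 0 m = if m % 3 = 0 then 0 else 3 / 4 := by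
  unfold sgm
  have h1 : 2 * (m : ℝ) * (Real.pi / 3 + 0) = 2 * Real.pi * (m : ℝ) / 3 := by ring
  rw [h1, cos3, mul_zero, Real.cos_zero]
  split_ifs <;> norm_num

theorem TW0 (β P : ℝ → ℂ) (q : ℤ) (z : ℂ) : TW β P 0 0 q z = 0 := by
  have hR : ∀ j, RR 0 j = 0 := by intro j; unfold RR; simp
  have hK : ∀ j, KK 0 0 j = 0 := by intro j; unfold KK; rw [hR]; ring
  unfold TW
  simp [hR, hK]

/-- block inequality from lower bounds of the coefficients -/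
theorem core (b γu γw gu gw α0 δ0 : ℝ) (hb : 0 < b)
    (h1 : α0 ≤ 53225 / 10000 + (1 + 2 * γu) / (b + 2) - b / (4 * (b + 2)) * gu ^ 2)
    (h2 : δ0 ≤ 53225 / 10000 - (1 + 2 * γw) / b - (b + 2) / (4 * b) * gw ^ 2)
    (h3 : 0 ≤ α0) (h4 : 0 ≤ δ0) (h5 : (gu * gw / 4 - 4875 / 10000) ^ 2 ≤ α0 * δ0) (u w : ℂ) :
    31 / 10 * (‖u‖ ^ 2 + ‖w‖ ^ 2) ≤
      (1 / (b + 2) + (1 - 1 / 2) * (4 * γu / (b + 2))) * ‖u‖ ^ 2
      - (1 / b + (1 - 1 / 2) * (4 * γw / b)) * ‖w‖ ^ 2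
      - (((b + 1) ^ 2 - 1) / (8 * (1 / 2))) * ‖((gu / (b + 2) : ℝ) : ℂ) * u
          - ((gw / b : ℝ) : ℂ) * (starRingEnd ℂ) w‖ ^ 2
      + 891 / 100 * (‖u‖ ^ 2 + ‖w‖ ^ 2) - 39 / 80 * ‖u + (starRingEnd ℂ) w‖ ^ 2 := by
  rw [nsq, nadd]
  have hq := quad α0 δ0 (gu * gw / 4 - 4875 / 10000) h3 h4 h5 u w
  have e1 : ((b + 1) ^ 2 - 1) / (8 * (1 / 2)) * ((gu / (b + 2)) ^ 2 * ‖u‖ ^ 2 + (gw / b) ^ 2 * ‖w‖ ^ 2
      - 2 * (gu / (b + 2)) * (gw / b) * (u * w).re) =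
      b / (4 * (b + 2)) * gu ^ 2 * ‖u‖ ^ 2 + (b + 2) / (4 * b) * gw ^ 2 * ‖w‖ ^ 2
        - gu * gw / 2 * (u * w).re := by
    field_simp
    ring
  have e2 : (1 / (b + 2) + (1 - 1 / 2) * (4 * γu / (b + 2))) = (1 + 2 * γu) / (b + 2) := by
    field_simp
    ring
  have e3 : (1 / b + (1 - 1 / 2) * (4 * γw / b)) = (1 + 2 * γw) / b := by
    field_simp
    ring
  rw [e1, e2, e3]
  have hu : 0 ≤ ‖u‖ ^ 2 := sq_nonneg _
  have hw : 0 ≤ ‖w‖ ^ 2 := sq_nonneg _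
  have f1 := mul_le_mul_of_nonneg_right h1 hu
  have f2 := mul_le_mul_of_nonneg_right h2 hw
  linarith

/-- the same for all `b ≥ b0` -/
theorem core2 (b0 b γu γw gu gw α0 δ0 : ℝ) (hb0 : 0 < b0) (hb : b0 ≤ b) (hγu : 0 ≤ γu)
    (hγw : 0 ≤ γw)
    (h1 : α0 ≤ 53225 / 10000 - gu ^ 2 / 4)
    (h2 : δ0 ≤ 53225 / 10000 - (1 + 2 * γw) / b0 - (1 / 4 + 1 / (2 * b0)) * gw ^ 2)
    (h3 : 0 ≤ α0) (h4 : 0 ≤ δ0) (h5 : (gu * gw / 4 - 4875 / 10000) ^ 2 ≤ α0 * δ0) (u w : ℂ) :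
    31 / 10 * (‖u‖ ^ 2 + ‖w‖ ^ 2) ≤
      (1 / (b + 2) + (1 - 1 / 2) * (4 * γu / (b + 2))) * ‖u‖ ^ 2
      - (1 / b + (1 - 1 / 2) * (4 * γw / b)) * ‖w‖ ^ 2
      - (((b + 1) ^ 2 - 1) / (8 * (1 / 2))) * ‖((gu / (b + 2) : ℝ) : ℂ) * u
          - ((gw / b : ℝ) : ℂ) * (starRingEnd ℂ) w‖ ^ 2
      + 891 / 100 * (‖u‖ ^ 2 + ‖w‖ ^ 2) - 39 / 80 * ‖u + (starRingEnd ℂ) w‖ ^ 2 := by
  have hb1 : 0 < b := lt_of_lt_of_le hb0 hb
  refine core b γu γw gu gw α0 δ0 hb1 (h1.trans ?_) (h2.trans ?_) h3 h4 h5 u w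
  · have e1 : 0 ≤ (1 + 2 * γu) / (b + 2) := by positivity
    have e2 : b / (4 * (b + 2)) ≤ 1 / 4 := by
      rw [div_le_div_iff₀ (by positivity) (by norm_num)]
      linarith
    have e3 := mul_le_mul_of_nonneg_right e2 (sq_nonneg gu)
    linarith
  · have e1 : (1 + 2 * γw) / b ≤ (1 + 2 * γw) / b0 :=
      div_le_div_of_nonneg_left (by positivity) hb0 hb
    have e2 : (b + 2) / (4 * b) ≤ 1 / 4 + 1 / (2 * b0) := by
      have e4 : (b + 2) / (4 * b) = 1 / 4 + 1 / (2 * b) := by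
        field_simp
        ring
      rw [e4]
      have e5 : 1 / (2 * b) ≤ 1 / (2 * b0) :=
        div_le_div_of_nonneg_left (by norm_num) (by positivity) (by linarith)
      linarith
    have e3 := mul_le_mul_of_nonneg_right e2 (sq_nonneg gw)
    linarith

theorem sqrt3_bounds : (17320 : ℝ) / 10000 ≤ Real.sqrt 3 ∧ Real.sqrt 3 ≤ 17321 / 10000 := by
  constructor
  · apply Real.le_sqrt_of_sq_le
    norm_num
  · rw [Real.sqrt_le_left (by norm_num)]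
    norm_num

theorem blk1 (k : ℕ) (hk : k ≠ 0) (u w : ℂ) :
    31 / 10 * (‖u‖ ^ 2 + ‖w‖ ^ 2) ≤
      QB (1 / 2) (1 / 2) 0 0 k u w + 891 / 100 * (‖u‖ ^ 2 + ‖w‖ ^ 2)
        - 39 / 80 * ‖u + (starRingEnd ℂ) w‖ ^ 2 := by
  obtain ⟨s1, s2⟩ := sqrt3_bounds
  have s3 : Real.sqrt 3 ^ 2 = 3 := Real.sq_sqrt (by norm_num)
  set s := Real.sqrt 3 with hs
  -- the shape of the block
  have hQ : ∀ γu γw gu gw : ℝ, Helper56.RC.gam 0 0 (2 * (k : ℤ) + 3) = γu →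
      Helper56.RC.gam 0 0 (-(2 * (k : ℤ) + 1)) = γw →
      gg (1 / 2) k + 1 / 2 * chu k = gu → gg (1 / 2) k + 1 / 2 * chw k = gw →
      QB (1 / 2) (1 / 2) 0 0 k u w = (1 / ((2 * (k : ℝ) + 1) + 2) + (1 - 1 / 2) * (4 * γu / ((2 * (k : ℝ) + 1) + 2))) * ‖u‖ ^ 2
      - (1 / (2 * (k : ℝ) + 1) + (1 - 1 / 2) * (4 * γw / (2 * (k : ℝ) + 1))) * ‖w‖ ^ 2
      - ((((2 * (k : ℝ) + 1) + 1) ^ 2 - 1) / (8 * (1 / 2))) * ‖((gu / ((2 * (k : ℝ) + 1) + 2) : ℝ) : ℂ) * u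
          - ((gw / (2 * (k : ℝ) + 1) : ℝ) : ℂ) * (starRingEnd ℂ) w‖ ^ 2 := by
    intro γu γw gu gw e1 e2 e3 e4
    unfold QB
    rw [if_neg hk, e1, e2, e3, e4]
    have a1 : (2 * (k : ℝ) + 1) + 2 = 2 * (k : ℝ) + 3 := by ring
    have a2 : (2 * (k : ℝ) + 1) + 1 = 2 * (k : ℝ) + 2 := by ring
    rw [a1, a2]
    ring
  have hkr : (1 : ℝ) ≤ k := by
    have : 1 ≤ k := Nat.one_le_iff_ne_zero.2 hk
    exact_mod_cast this
  have hgo : ∀ j : ℕ, k = 2 * j → gg (1 / 2) k = 2 + s / 2 := by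
    intro j hj
    unfold gg
    rw [hj, pow_succ, pow_mul, ← hs]
    norm_num
    ring
  have hge : ∀ j : ℕ, k = 2 * j + 1 → gg (1 / 2) k = 2 - s / 2 := by
    intro j hj
    have : k + 1 = 2 * (j + 1) := by omega
    unfold gg
    rw [this, pow_mul, ← hs]
    norm_num
    ring
  have hcases : k % 6 = 0 ∨ k % 6 = 1 ∨ k % 6 = 2 ∨ k % 6 = 3 ∨ k % 6 = 4 ∨ k % 6 = 5 := by omega
  rcases hcases with h | h | h | h | h | h
  · -- k = 0 mod 6
    have hg := hgo (k / 2) (by omega)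
    have e1 : Helper56.RC.gam 0 0 (2 * (k : ℤ) + 3) = 1 / 4 := by
      rw [gam0, if_neg (by omega)]
    have e2 : Helper56.RC.gam 0 0 (-(2 * (k : ℤ) + 1)) = 1 := by
      rw [gam0, if_pos (by omega)]
    have e3 : gg (1 / 2) k + 1 / 2 * chu k = 3 / 2 + s / 2 := by
      rw [hg, chu, if_neg (by omega)]; ring
    have e4 : gg (1 / 2) k + 1 / 2 * chw k = 3 + s / 2 := by
      rw [hg, chw, if_pos (by omega)]; ring
    rw [hQ _ _ _ _ e1 e2 e3 e4]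
    by_cases h6 : k = 6
    · subst h6
      refine core (2 * ((6 : ℕ) : ℝ) + 1) (1 / 4) 1 _ _ (47725 / 10000 - 13 / 40 * s)
        (53225 / 10000 - 3 / 13 - 15 / 52 * (39 / 4 + 3 * s)) (by norm_num) ?_ ?_ ?_ ?_ ?_ u w
      · push_cast
        norm_num
        nlinarith
      · push_cast
        norm_num
        nlinarith
      · linarith
      · linarith
      · nlinarith
    · have h12 : (12 : ℝ) ≤ k := by
        have : 12 ≤ k := by omega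
        exact_mod_cast this
      have hb : (25 : ℝ) ≤ 2 * (k : ℝ) + 1 := by linarith
      refine core2 25 (2 * (k : ℝ) + 1) (1 / 4) 1 _ _ (45725 / 10000 - 3 / 8 * s)
        (257 / 100 - 81 / 100 * s) (by norm_num) hb (by norm_num) (by norm_num) ?_ ?_ ?_ ?_ ?_ u w
      · linarith [s3]
      · norm_num
        nlinarith [s3]
      · linarith
      · linarith
      · nlinarith [s3]
  · -- k = 1 mod 6
    have hg := hge (k / 2) (by omega)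
    have e1 : Helper56.RC.gam 0 0 (2 * (k : ℤ) + 3) = 1 := by
      rw [gam0, if_pos (by omega)]
    have e2 : Helper56.RC.gam 0 0 (-(2 * (k : ℤ) + 1)) = 1 / 4 := by
      rw [gam0, if_neg (by omega)]
    have e3 : gg (1 / 2) k + 1 / 2 * chu k = 3 - s / 2 := by
      rw [hg, chu, if_pos (by omega)]; ring
    have e4 : gg (1 / 2) k + 1 / 2 * chw k = 3 / 2 - s / 2 := by
      rw [hg, chw, if_neg (by omega)]; ring
    rw [hQ _ _ _ _ e1 e2 e3 e4]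
    have hb : (3 : ℝ) ≤ 2 * (k : ℝ) + 1 := by linarith
    refine core2 3 (2 * (k : ℝ) + 1) 1 (1 / 4) _ _ 4 4 (by norm_num) hb (by norm_num)
      (by norm_num) ?_ ?_ (by norm_num) (by norm_num) ?_ u w
    · nlinarith [s3]
    · norm_num
      nlinarith [s3]
    · have q1 : (3 - s / 2) * (3 / 2 - s / 2) / 4 - 4875 / 10000 = 525 / 400 - 4875 / 10000 - 9 / 16 * s := by
        linear_combination (1 / 16) * s3
      rw [q1]
      nlinarith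
  · -- k = 2 mod 6
    have hg := hgo (k / 2) (by omega)
    have e1 : Helper56.RC.gam 0 0 (2 * (k : ℤ) + 3) = 1 / 4 := by
      rw [gam0, if_neg (by omega)]
    have e2 : Helper56.RC.gam 0 0 (-(2 * (k : ℤ) + 1)) = 1 / 4 := by
      rw [gam0, if_neg (by omega)]
    have e3 : gg (1 / 2) k + 1 / 2 * chu k = 3 / 2 + s / 2 := by
      rw [hg, chu, if_neg (by omega)]; ring
    have e4 : gg (1 / 2) k + 1 / 2 * chw k = 3 / 2 + s / 2 := by
      rw [hg, chw, if_neg (by omega)]; ring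
    rw [hQ _ _ _ _ e1 e2 e3 e4]
    have h12 : (2 : ℝ) ≤ k := by
      have : 2 ≤ k := by omega
      exact_mod_cast this
    have hb : (5 : ℝ) ≤ 2 * (k : ℝ) + 1 := by linarith
    refine core2 5 (2 * (k : ℝ) + 1) (1 / 4) (1 / 4) _ _ (39 / 10) 3 (by norm_num) hb (by norm_num)
      (by norm_num) ?_ ?_ (by norm_num) (by norm_num) ?_ u w
    · nlinarith [s3]
    · norm_num
      nlinarith [s3]
    · have q1 : (3 / 2 + s / 2) * (3 / 2 + s / 2) / 4 - 4875 / 10000 = 3 / 4 - 4875 / 10000 + 3 / 8 * s := by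
        linear_combination (1 / 16) * s3
      rw [q1]
      nlinarith
  · -- k = 3 mod 6
    have hg := hge (k / 2) (by omega)
    have e1 : Helper56.RC.gam 0 0 (2 * (k : ℤ) + 3) = 1 / 4 := by
      rw [gam0, if_neg (by omega)]
    have e2 : Helper56.RC.gam 0 0 (-(2 * (k : ℤ) + 1)) = 1 := by
      rw [gam0, if_pos (by omega)]
    have e3 : gg (1 / 2) k + 1 / 2 * chu k = 3 / 2 - s / 2 := by
      rw [hg, chu, if_neg (by omega)]; ring
    have e4 : gg (1 / 2) k + 1 / 2 * chw k = 3 - s / 2 := by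
      rw [hg, chw, if_pos (by omega)]; ring
    rw [hQ _ _ _ _ e1 e2 e3 e4]
    have h12 : (3 : ℝ) ≤ k := by
      have : 3 ≤ k := by omega
      exact_mod_cast this
    have hb : (7 : ℝ) ≤ 2 * (k : ℝ) + 1 := by linarith
    refine core2 7 (2 * (k : ℝ) + 1) (1 / 4) 1 _ _ 5 3 (by norm_num) hb (by norm_num)
      (by norm_num) ?_ ?_ (by norm_num) (by norm_num) ?_ u w
    · nlinarith [s3]
    · norm_num
      nlinarith [s3]
    · have q1 : (3 / 2 - s / 2) * (3 - s / 2) / 4 - 4875 / 10000 = 525 / 400 - 4875 / 10000 - 9 / 16 * s := by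
        linear_combination (1 / 16) * s3
      rw [q1]
      nlinarith
  · -- k = 4 mod 6
    have hg := hgo (k / 2) (by omega)
    have e1 : Helper56.RC.gam 0 0 (2 * (k : ℤ) + 3) = 1 := by
      rw [gam0, if_pos (by omega)]
    have e2 : Helper56.RC.gam 0 0 (-(2 * (k : ℤ) + 1)) = 1 / 4 := by
      rw [gam0, if_neg (by omega)]
    have e3 : gg (1 / 2) k + 1 / 2 * chu k = 3 + s / 2 := by
      rw [hg, chu, if_pos (by omega)]; ring
    have e4 : gg (1 / 2) k + 1 / 2 * chw k = 3 / 2 + s / 2 := by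
      rw [hg, chw, if_neg (by omega)]; ring
    rw [hQ _ _ _ _ e1 e2 e3 e4]
    have h12 : (4 : ℝ) ≤ k := by
      have : 4 ≤ k := by omega
      exact_mod_cast this
    have hb : (9 : ℝ) ≤ 2 * (k : ℝ) + 1 := by linarith
    refine core2 9 (2 * (k : ℝ) + 1) 1 (1 / 4) _ _ (158 / 100) 3 (by norm_num) hb (by norm_num)
      (by norm_num) ?_ ?_ (by norm_num) (by norm_num) ?_ u w
    · nlinarith [s3]
    · norm_num
      nlinarith [s3]
    · have q1 : (3 + s / 2) * (3 / 2 + s / 2) / 4 - 4875 / 10000 = 525 / 400 - 4875 / 10000 + 9 / 16 * s := by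
        linear_combination (1 / 16) * s3
      rw [q1]
      nlinarith
  · -- k = 5 mod 6
    have hg := hge (k / 2) (by omega)
    have e1 : Helper56.RC.gam 0 0 (2 * (k : ℤ) + 3) = 1 / 4 := by
      rw [gam0, if_neg (by omega)]
    have e2 : Helper56.RC.gam 0 0 (-(2 * (k : ℤ) + 1)) = 1 / 4 := by
      rw [gam0, if_neg (by omega)]
    have e3 : gg (1 / 2) k + 1 / 2 * chu k = 3 / 2 - s / 2 := by
      rw [hg, chu, if_neg (by omega)]; ring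
    have e4 : gg (1 / 2) k + 1 / 2 * chw k = 3 / 2 - s / 2 := by
      rw [hg, chw, if_neg (by omega)]; ring
    rw [hQ _ _ _ _ e1 e2 e3 e4]
    have h12 : (5 : ℝ) ≤ k := by
      have : 5 ≤ k := by omega
      exact_mod_cast this
    have hb : (11 : ℝ) ≤ 2 * (k : ℝ) + 1 := by linarith
    refine core2 11 (2 * (k : ℝ) + 1) (1 / 4) (1 / 4) _ _ 5 5 (by norm_num) hb (by norm_num)
      (by norm_num) ?_ ?_ (by norm_num) (by norm_num) ?_ u w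
    · nlinarith [s3]
    · norm_num
      nlinarith [s3]
    · have q1 : (3 / 2 - s / 2) * (3 / 2 - s / 2) / 4 - 4875 / 10000 = 3 / 4 - 4875 / 10000 - 3 / 8 * s := by
        linear_combination (1 / 16) * s3
      rw [q1]
      nlinarith

theorem nadd2 (x y : ℝ) (u w : ℂ) : ‖(x : ℂ) * u + (y : ℂ) * (starRingEnd ℂ) w‖ ^ 2
    = x ^ 2 * ‖u‖ ^ 2 + y ^ 2 * ‖w‖ ^ 2 + 2 * x * y * (u * w).re := by
  rw [← Complex.normSq_eq_norm_sq, ← Complex.normSq_eq_norm_sq, ← Complex.normSq_eq_norm_sq]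
  simp only [Complex.normSq_apply, Complex.add_re, Complex.add_im, Complex.mul_re, Complex.mul_im,
    Complex.ofReal_re, Complex.ofReal_im, Complex.conj_re, Complex.conj_im]
  ring

theorem nsub3 (u w : ℂ) : ‖(3 / 2 : ℂ) * (starRingEnd ℂ) w - (1 / 2 : ℂ) * u‖ ^ 2
    = 1 / 4 * ‖u‖ ^ 2 + 9 / 4 * ‖w‖ ^ 2 - 3 / 2 * (u * w).re := by
  have h := nsq (-(1 / 2)) (-(3 / 2)) u w
  have e : (((-(1 / 2) : ℝ)) : ℂ) * u - (((-(3 / 2) : ℝ)) : ℂ) * (starRingEnd ℂ) w =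
      (3 / 2 : ℂ) * (starRingEnd ℂ) w - (1 / 2 : ℂ) * u := by
    push_cast
    ring
  rw [e] at h
  rw [h]
  ring

theorem blk0 (u w : ℂ) :
    72 / 10 * ‖u‖ ^ 2 + 555 / 100 * ‖w‖ ^ 2 ≤
      QB (1 / 2) (1 / 2) 0 0 0 u w + 891 / 100 * (‖u‖ ^ 2 + ‖w‖ ^ 2)
        - 39 / 80 * ‖u + (starRingEnd ℂ) w‖ ^ 2 := by
  obtain ⟨s1, s2⟩ := sqrt3_bounds
  have s3 : Real.sqrt 3 ^ 2 = 3 := Real.sq_sqrt (by norm_num)
  set s := Real.sqrt 3 with hs
  have hg : gg (1 / 2) 0 = 2 + s / 2 := by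
    unfold gg
    rw [← hs]
    norm_num
    ring
  have e1 : Helper56.RC.gam 0 0 (2 * ((0 : ℕ) : ℤ) + 3) = 1 / 4 := by
    rw [gam0, if_neg (by norm_num)]
  have e2 : Helper56.RC.gam 0 0 (-(2 * ((0 : ℕ) : ℤ) + 1)) = 1 := by
    rw [gam0, if_pos (by norm_num)]
  unfold QB
  rw [if_pos rfl, e1, e2, hg, nsub3, nadd2, nadd]
  have hq := quad (188 / 100) (1 / 2) (-(9875 / 10000) + (s + 1) / 48) (by norm_num) (by norm_num)
    (by nlinarith) u w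
  have x2 : ((2 + s / 2 - 1 / 2 - 2) / 3) ^ 2 = (2 - s) / 18 := by
    linear_combination (1 / 36) * s3
  have y2 : (2 - (2 + s / 2) - 2 * (1 / 2)) ^ 2 = 7 / 4 + s := by
    linear_combination (1 / 4) * s3
  have xy : 2 * ((2 + s / 2 - 1 / 2 - 2) / 3) * (2 - (2 + s / 2) - 2 * (1 / 2)) = -((s + 1) / 6) := by
    linear_combination (-(1 / 6)) * s3
  rw [x2, y2, xy]
  have hu : 0 ≤ ‖u‖ ^ 2 := sq_nonneg _
  have hw : 0 ≤ ‖w‖ ^ 2 := sq_nonneg _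
  generalize (u * w).re = R at hq ⊢
  push_cast
  norm_num
  nlinarith [mul_nonneg hu (by linarith : (0:ℝ) ≤ s - 17320/10000), mul_nonneg hw (by linarith : (0:ℝ) ≤ s - 17320/10000),
    mul_nonneg hu (by linarith : (0:ℝ) ≤ 17321/10000 - s), mul_nonneg hw (by linarith : (0:ℝ) ≤ 17321/10000 - s)]

theorem sgm_nn (m : ℤ) : 0 ≤ sgm 0 0 m := by
  rw [sgm0]; split_ifs <;> norm_num

theorem sgm_le (m : ℤ) : sgm 0 0 m ≤ 1 := by
  rw [sgm0]; split_ifs <;> norm_num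

theorem vpair (k : ℕ) (v v' : ℂ) :
    0 ≤ 1833 / 1000 * (1 / 2 * (‖v‖ ^ 2 + ‖v'‖ ^ 2) + 1 / 2 * (v * v').re)
      + 1 / 2 * (4 * sgm 0 0 (2 * (k : ℤ) + 2) / (2 * (k : ℝ) + 2) * ‖v‖ ^ 2
        - 4 * sgm 0 0 (2 * (k : ℤ)) / (2 * (k : ℝ)) * ‖v'‖ ^ 2) := by
  have hv : 0 ≤ ‖v‖ ^ 2 := sq_nonneg _
  have hv' : 0 ≤ ‖v'‖ ^ 2 := sq_nonneg _
  have hA : 0 ≤ 4 * sgm 0 0 (2 * (k : ℤ) + 2) / (2 * (k : ℝ) + 2) := by
    have := sgm_nn (2 * (k : ℤ) + 2)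
    positivity
  have key : ∀ α δ : ℝ, α ≤ 1833 / 2000 + 1 / 2 * (4 * sgm 0 0 (2 * (k : ℤ) + 2) / (2 * (k : ℝ) + 2)) →
      δ ≤ 1833 / 2000 - 1 / 2 * (4 * sgm 0 0 (2 * (k : ℤ)) / (2 * (k : ℝ))) → 0 ≤ α → 0 ≤ δ →
      (1833 / 4000) ^ 2 ≤ α * δ →
      0 ≤ 1833 / 1000 * (1 / 2 * (‖v‖ ^ 2 + ‖v'‖ ^ 2) + 1 / 2 * (v * v').re)
      + 1 / 2 * (4 * sgm 0 0 (2 * (k : ℤ) + 2) / (2 * (k : ℝ) + 2) * ‖v‖ ^ 2
        - 4 * sgm 0 0 (2 * (k : ℤ)) / (2 * (k : ℝ)) * ‖v'‖ ^ 2) := by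
    intro α δ h1 h2 h3 h4 h5
    have hq := quad α δ (1833 / 4000) h3 h4 h5 v v'
    have f1 := mul_le_mul_of_nonneg_right h1 hv
    have f2 := mul_le_mul_of_nonneg_right h2 hv'
    linarith
  rcases Nat.lt_or_ge k 1 with h0 | h0
  · have hk : k = 0 := by omega
    subst hk
    refine key (9 / 10) (9 / 10) (by linarith) ?_ (by norm_num) (by norm_num) (by norm_num)
    norm_num
  rcases Nat.lt_or_ge k 2 with h1 | h1
  · have hk : k = 1 := by omega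
    subst hk
    refine key (129 / 100) (166 / 1000) ?_ ?_ (by norm_num) (by norm_num) (by norm_num)
    · rw [sgm0, if_neg (by norm_num)]
      norm_num
    · rw [sgm0, if_neg (by norm_num)]
      norm_num
  · have hk2 : (2 : ℝ) ≤ k := by exact_mod_cast h1
    refine key (9 / 10) (4 / 10) (by linarith) ?_ (by norm_num) (by norm_num) (by norm_num)
    have e1 := sgm_le (2 * (k : ℤ))
    have e2 : 4 * sgm 0 0 (2 * (k : ℤ)) / (2 * (k : ℝ)) ≤ 1 := by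
      rw [div_le_one (by linarith)]
      linarith
    linarith

theorem scal (s m S x y2 : ℝ) (s1 : 17320 / 10000 ≤ s) (hm1 : 1 / 10 ≤ m)
    (hm2 : m ≤ 1) (hS1 : -(m / 2) ≤ S) (hS2 : S ≤ 1 / 5) (hx : x ^ 2 ≤ y2) (hy : y2 ≤ m) :
    0 ≤ 7 + s - 891 / 100 + (1 + s / 2) * S - 1 / 2 * S ^ 2 + (5 / 2 - s / 2) * S * x
      - 39 / 20 * S + (2 - 3 / 2 * s) * x - (2 - s / 2) * x ^ 2 - 39 / 40 * x ^ 2
      + 731 / 100 * y2 + 31 / 10 * m - 5 / 2 * m ^ 2 := by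
  have hx1 : x ≤ 1 := by
    have : x ^ 2 ≤ 1 := by linarith
    nlinarith [sq_nonneg (x - 1)]
  have hA : 0 ≤ (1 - x) * (1 + S / 2 - x / 2) := mul_nonneg (by linarith) (by linarith)
  have hB := mul_nonneg (sub_nonneg.2 s1) hA
  have hm3 : 0 ≤ (m - 1 / 10) * (1 - m) := mul_nonneg (by linarith) (by linarith)
  have q1 : 0 ≤ 702 / 10000 - 2712 / 10000 * x + 5201 / 1000 * x ^ 2 := by
    nlinarith [sq_nonneg (x - 26 / 1000)]
  have q0 : 0 ≤ 10995 / 100000 - 6797 / 10000 * x + 5201 / 1000 * x ^ 2 := by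
    nlinarith [sq_nonneg (x - 65 / 1000)]
  have q2 : 0 ≤ 339 / 1000 - 1415 / 1000 * x + 5201 / 1000 * x ^ 2 := by
    nlinarith [sq_nonneg (x - 136 / 1000)]
  rcases le_total (-(1 / 20)) S with h | h
  · have h1 := mul_nonneg (sub_nonneg.2 h) (sub_nonneg.2 hS2)
    have h2 := mul_nonneg (sub_nonneg.2 h) q1
    have h3 := mul_nonneg (sub_nonneg.2 hS2) q0
    nlinarith
  · have h4 : -(1 / 2) ≤ S := by linarith
    have h1 := mul_nonneg (sub_nonneg.2 h4) (sub_nonneg.2 h)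
    have h2 := mul_nonneg (sub_nonneg.2 h4) q0
    have h3 := mul_nonneg (sub_nonneg.2 h) q2
    nlinarith

theorem mB_le (β : ℝ → ℂ) (hβ : ∀ t, ‖β t‖ < 1) : mB β ≤ 1 := by
  unfold mB
  have h1 : ‖∫ t in (0 : ℝ)..(2 * Real.pi), ‖β t‖ ^ 2‖ ≤ 1 * |2 * Real.pi - 0| := by
    apply intervalIntegral.norm_integral_le_of_norm_le_const
    intro t _
    rw [Real.norm_of_nonneg (sq_nonneg _)]
    have := hβ t
    nlinarith [norm_nonneg (β t)]
  rw [sub_zero, one_mul, abs_of_pos (by positivity)] at h1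
  have h2 : (∫ t in (0 : ℝ)..(2 * Real.pi), ‖β t‖ ^ 2) ≤ 2 * Real.pi :=
    (le_abs_self _).trans (by rwa [Real.norm_eq_abs] at h1)
  calc (1 / (2 * Real.pi)) * ∫ t in (0 : ℝ)..(2 * Real.pi), ‖β t‖ ^ 2
      ≤ (1 / (2 * Real.pi)) * (2 * Real.pi) := mul_le_mul_of_nonneg_left h2 (by positivity)
    _ = 1 := by field_simp

theorem hG1 (h1 : StLbt) (h2 : StLoc) (h3 : StPar) : StG1 := by
  intro β P hA hβ hm hS
  obtain ⟨hsQ, hL⟩ := h1 β P hA hβ (1 / 2) (1 / 2) 0 0 1 (by norm_num) (by norm_num) (by norm_num)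
    (by norm_num) (by simp; positivity) (by simp)
  have hloc := h2 β P hA hβ
  obtain ⟨sn, em, sv, er, eq⟩ := h3 β P hA hβ
  have hm1 := mB_le β hβ
  obtain ⟨s1, s2⟩ := sqrt3_bounds
  rw [TW0, TW0] at hL
  set s := Real.sqrt 3 with hs
  -- the window free part in `P`
  have svp : Summable fun k : ℕ => ‖cp P k‖ ^ 2 :=
    Summable.of_nonneg_of_le (fun _ => sq_nonneg _)
      (fun k => le_add_of_nonneg_right (sq_nonneg _)) sv
  have svm : Summable fun k : ℕ => ‖cm P k‖ ^ 2 :=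
    Summable.of_nonneg_of_le (fun _ => sq_nonneg _)
      (fun k => le_add_of_nonneg_left (sq_nonneg _)) sv
  obtain ⟨A, hAdef⟩ : ∃ A : ℕ → ℝ, ∀ k, A k = 4 * sgm 0 0 (2 * (k : ℤ) + 2) / (2 * (k : ℝ) + 2) * ‖cp P k‖ ^ 2 :=
    ⟨_, fun k => rfl⟩
  obtain ⟨B, hBdef⟩ : ∃ B : ℕ → ℝ, ∀ k, B k = 4 * sgm 0 0 (2 * (k : ℤ)) / (2 * (k : ℝ)) * ‖cm P k‖ ^ 2 :=
    ⟨_, fun k => rfl⟩
  have sA : Summable A := by
    refine Summable.of_nonneg_of_le (fun k => ?_) (fun k => ?_) (svp.mul_left 2)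
    · rw [hAdef]
      have := sgm_nn (2 * (k : ℤ) + 2)
      positivity
    · rw [hAdef]
      refine mul_le_mul_of_nonneg_right ?_ (sq_nonneg _)
      have := sgm_le (2 * (k : ℤ) + 2)
      rw [div_le_iff₀ (by positivity)]
      have : (0 : ℝ) ≤ k := Nat.cast_nonneg k
      linarith
  have sB : Summable B := by
    refine Summable.of_nonneg_of_le (fun k => ?_) (fun k => ?_) (svm.mul_left 2)
    · rw [hBdef]
      have := sgm_nn (2 * (k : ℤ))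
      positivity
    · rw [hBdef]
      refine mul_le_mul_of_nonneg_right ?_ (sq_nonneg _)
      rcases Nat.eq_zero_or_pos k with rfl | hk
      · simp
      · have := sgm_le (2 * (k : ℤ))
        have hk1 : (1 : ℝ) ≤ k := by exact_mod_cast hk
        rw [div_le_iff₀ (by positivity)]
        linarith
  have hB0 : B 0 = 0 := by
    rw [hBdef]
    simp
  have hT : (∑' k : ℕ, 4 * sgm 0 0 (2 * (k : ℤ) + 2) / (2 * (k : ℝ) + 2) * (‖cp P k‖ ^ 2 - ‖cm P (k + 1)‖ ^ 2))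
      = ∑' k : ℕ, (A k - B k) := by
    have e1 : ∀ k : ℕ, 4 * sgm 0 0 (2 * (k : ℤ) + 2) / (2 * (k : ℝ) + 2) * (‖cp P k‖ ^ 2 - ‖cm P (k + 1)‖ ^ 2)
        = A k - B (k + 1) := by
      intro k
      rw [hAdef, hBdef]
      have e2 : (2 * ((k + 1 : ℕ) : ℤ)) = 2 * (k : ℤ) + 2 := by push_cast; ring
      have e3 : (2 * ((k + 1 : ℕ) : ℝ)) = 2 * (k : ℝ) + 2 := by push_cast; ring
      rw [e2, e3]
      ring
    simp_rw [e1]
    have sB1 : Summable fun k : ℕ => B (k + 1) := (summable_nat_add_iff 1).2 sB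
    rw [Summable.tsum_sub sA sB1, Summable.tsum_sub sA sB, sB.tsum_eq_zero_add, hB0, zero_add]
  rw [hT] at hL
  have hV : 0 ≤ 1833 / 1000 * qP P + 1 / 2 * ∑' k : ℕ, (A k - B k) := by
    rw [eq]
    have hre : ∀ k, |(cp P k * cm P k).re| ≤ 1 / 2 * (‖cp P k‖ ^ 2 + ‖cm P k‖ ^ 2) := by
      intro k
      refine (Complex.abs_re_le_norm _).trans ?_
      rw [norm_mul]
      nlinarith [sq_nonneg (‖cp P k‖ - ‖cm P k‖)]
    have sq1 : Summable fun k : ℕ => (1 / 2 * (‖cp P k‖ ^ 2 + ‖cm P k‖ ^ 2) + 1 / 2 * (cp P k * cm P k).re) := by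
      refine Summable.of_nonneg_of_le (fun k => ?_) (fun k => ?_) sv
      · have := (abs_le.mp (hre k)).1
        have := sq_nonneg ‖cp P k‖
        have := sq_nonneg ‖cm P k‖
        linarith
      · have := (abs_le.mp (hre k)).2
        have := sq_nonneg ‖cp P k‖
        have := sq_nonneg ‖cm P k‖
        linarith
    rw [← tsum_mul_left, ← tsum_mul_left, ← Summable.tsum_add (sq1.mul_left _) ((sA.sub sB).mul_left _)]
    refine tsum_nonneg fun k => ?_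
    have := vpair k (cp P k) (cm P k)
    rw [hAdef, hBdef]
    exact this
  have hqP : 0 ≤ qP P := by
    unfold qP
    refine mul_nonneg (by positivity) (intervalIntegral.integral_nonneg (by positivity) fun t _ => ?_)
    positivity
  -- the part in `β`
  have hen : ∀ k : ℕ, 1 / 2 * ‖uu β k + (starRingEnd ℂ) (ww β k)‖ ^ 2 ≤ ‖uu β k‖ ^ 2 + ‖ww β k‖ ^ 2 := by
    intro k
    have h4 : ‖uu β k + (starRingEnd ℂ) (ww β k)‖ ≤ ‖uu β k‖ + ‖ww β k‖ := by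
      refine (norm_add_le _ _).trans ?_
      rw [RCLike.norm_conj]
    have h5 := pow_le_pow_left₀ (norm_nonneg _) h4 2
    nlinarith [sq_nonneg (‖uu β k‖ - ‖ww β k‖)]
  have se : Summable fun k : ℕ => 1 / 2 * ‖uu β k + (starRingEnd ℂ) (ww β k)‖ ^ 2 :=
    Summable.of_nonneg_of_le (fun k => by positivity) hen sn
  have hEN : ∑' k : ℕ, 1 / 2 * ‖uu β k + (starRingEnd ℂ) (ww β k)‖ ^ 2 ≤
      ∑' k : ℕ, (‖uu β k‖ ^ 2 + ‖ww β k‖ ^ 2) := Summable.tsum_le_tsum hen se sn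
  have hQ : 41 / 10 * ‖uu β 0‖ ^ 2 + 245 / 100 * ‖ww β 0‖ ^ 2 ≤
      (∑' k : ℕ, QB (1 / 2) (1 / 2) 0 0 k (uu β k) (ww β k))
      + 581 / 100 * (∑' k : ℕ, (‖uu β k‖ ^ 2 + ‖ww β k‖ ^ 2))
      - 39 / 40 * ∑' k : ℕ, 1 / 2 * ‖uu β k + (starRingEnd ℂ) (ww β k)‖ ^ 2 := by
    have sQ2 := hsQ.add (sn.mul_left (581 / 100))
    have e0 : (∑' k : ℕ, QB (1 / 2) (1 / 2) 0 0 k (uu β k) (ww β k))
      + 581 / 100 * (∑' k : ℕ, (‖uu β k‖ ^ 2 + ‖ww β k‖ ^ 2))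
      - 39 / 40 * ∑' k : ℕ, 1 / 2 * ‖uu β k + (starRingEnd ℂ) (ww β k)‖ ^ 2 =
      ∑' k : ℕ, (QB (1 / 2) (1 / 2) 0 0 k (uu β k) (ww β k) + 581 / 100 * (‖uu β k‖ ^ 2 + ‖ww β k‖ ^ 2)
        - 39 / 40 * (1 / 2 * ‖uu β k + (starRingEnd ℂ) (ww β k)‖ ^ 2)) := by
      rw [← tsum_mul_left, ← tsum_mul_left, ← Summable.tsum_add hsQ (sn.mul_left _),
        ← Summable.tsum_sub sQ2 (se.mul_left _)]
    rw [e0]
    have h4 := (sQ2.sub (se.mul_left (39 / 40))).le_tsum 0 (fun k hk => ?_)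
    · refine le_trans ?_ h4
      have := blk0 (uu β 0) (ww β 0)
      linarith
    · have := blk1 k hk (uu β k) (ww β k)
      linarith
  have hg : gg (1 / 2) 0 = 2 + s / 2 := by
    unfold gg
    rw [← hs]
    norm_num
    ring
  have hcub : ‖((gg (1 / 2) 0 + 4 * (1 / 2) : ℝ) : ℂ) * (starRingEnd ℂ) (ww β 0)
        - (((gg (1 / 2) 0 + 1 / 2) / 3 : ℝ) : ℂ) * uu β 0‖ ≤ 48661 / 10000 * ‖ww β 0‖ + 11221 / 10000 * ‖uu β 0‖ := by
    rw [hg]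
    refine (norm_sub_le _ _).trans ?_
    rw [norm_mul, norm_mul, RCLike.norm_conj, Complex.norm_real, Complex.norm_real,
      Real.norm_of_nonneg (by linarith), Real.norm_of_nonneg (by linarith)]
    have f1 : (2 + s / 2 + 4 * (1 / 2)) * ‖ww β 0‖ ≤ 48661 / 10000 * ‖ww β 0‖ :=
      mul_le_mul_of_nonneg_right (by linarith) (norm_nonneg _)
    have f2 : ((2 + s / 2 + 1 / 2) / 3) * ‖uu β 0‖ ≤ 11221 / 10000 * ‖uu β 0‖ :=
      mul_le_mul_of_nonneg_right (by linarith) (norm_nonneg _)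
    linarith
  have hFS : FSc (1 / 2) (1 / 2) = 1 + s / 2 := by
    unfold FSc
    rw [← hs]
    ring
  have hF1 : F1c (1 / 2) (1 / 2) = 5 / 2 - s / 2 := by
    unfold F1c
    rw [← hs]
    ring
  have hc1 : Real.cos (2 * 0) = 1 := by simp
  have hc2 : Real.cos (2 * Real.pi / 3 + 2 * 0) = -1 / 2 := by
    have h4 := cos3 1
    rw [if_neg (by norm_num)] at h4
    rw [← h4]
    congr 1
    push_cast
    ring
  have hg1 : Helper56.RC.gam 0 0 1 = 1 / 4 := by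
    rw [gam0, if_neg (by norm_num)]
  rw [hFS, hF1, hc1, hc2, hg1, Real.cos_zero] at hL
  have hm0 : 0 ≤ mB β := by linarith
  have hcub2 := mul_le_mul_of_nonneg_left hcub hm0
  have hsq : -(5 / 2 * mB β ^ 2) ≤ 41 / 10 * ‖uu β 0‖ ^ 2 + 245 / 100 * ‖ww β 0‖ ^ 2
      - mB β * (48661 / 10000 * ‖ww β 0‖ + 11221 / 10000 * ‖uu β 0‖) := by
    nlinarith [sq_nonneg (‖ww β 0‖ - 48661 / 49000 * mB β), sq_nonneg (‖uu β 0‖ - 11221 / 82000 * mB β),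
      sq_nonneg (mB β)]
  have hxy : b1 β ^ 2 ≤ ‖fc β 0‖ ^ 2 := by
    unfold b1
    rw [← sq_abs]
    exact pow_le_pow_left₀ (abs_nonneg _) (Complex.abs_re_le_norm _) 2
  have hN0 : 0 ≤ ∑' k : ℕ, (‖uu β k‖ ^ 2 + ‖ww β k‖ ^ 2) := tsum_nonneg fun k => by positivity
  have hrm : rB β ≤ mB β := by
    rw [er, em]
    linarith
  have hS1 : -(mB β / 2) ≤ SS β P := by linarith
  have hy : ‖fc β 0‖ ^ 2 ≤ mB β := by
    rw [em]
    linarith
  have hsc := scal s (mB β) (SS β P) (b1 β) (‖fc β 0‖ ^ 2) s1 hm hm1 hS1 hS hxy hy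
  have hq3 : (3 : ℝ) / (2 * (1 + 1 / 2)) = 1 := by norm_num
  rw [hq3, one_mul] at hL
  linarith

end Pool.Agent.Helper47.RC
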